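import Pool.Agent.PFD.StmtsD3

/-! # PFD, block D3, row ANW: lifting of the annihilators -/

open scoped BigOperators

noncomputable section

namespace Pool.Agent.PFD.D3.H75

open MonoidAlgebra
open Pool.Agent.PFD Pool.Agent.PFD.D3

theorem sum_all {k G : Type} [CommRing k] [Fintype G] (z : MonoidAlgebra k G) :
    (∑ v : G, MonoidAlgebra.single v (z.coeff v)) = z := by
  have h := MonoidAlgebra.sum_coeff_single z
  rw [Finsupp.sum_fintype] at h
  · exact h
  · intro i
    exact MonoidAlgebra.single_zero i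

theorem coeff_of_mul {k G : Type} [CommRing k] [CommGroup G] (z : MonoidAlgebra k G)
    (u v : G) : (MonoidAlgebra.of k G u * z).coeff v = z.coeff (u⁻¹ * v) := by
  rw [MonoidAlgebra.of_apply]
  rw [MonoidAlgebra.coeff_single_mul_eq_mul_coeff (u⁻¹ * v), one_mul]
  intro m' _
  constructor
  · intro h
    rw [← h, inv_mul_cancel_left]
  · intro h
    rw [h, mul_inv_cancel_left]

/-- the coefficients of `z` -/
theorem inv_coeff {F V E : Type} [Field F] [CommGroup V] [Group E] (φ : E →* MulAut V)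
    (e : E) (z : MonoidAlgebra F V)
    (hz : ∀ u : V, MonoidAlgebra.of F V (φ e u) * z = MonoidAlgebra.of F V u * z) (u v : V) :
    z.coeff ((φ e u)⁻¹ * u * v) = z.coeff v := by
  have h := congrArg (fun t => MonoidAlgebra.coeff t (u * v)) (hz u)
  simp only [coeff_of_mul] at h
  rw [inv_mul_cancel_left, ← mul_assoc] at h
  exact h

/-- invariance under `Va` -/
theorem inv_Va {ℓ : ℕ} {F V E : Type} [Field F] [CommGroup V] [Group E]
    (φ : E →* MulAut V) (Va W : Subgroup V) (hC : CtW ℓ φ Va W)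
    (e : E) (he : e ≠ 1) (z : MonoidAlgebra F V)
    (hz : ∀ u : V, MonoidAlgebra.of F V (φ e u) * z = MonoidAlgebra.of F V u * z) (a : Va)
    (v : V) : z.coeff (a * v) = z.coeff v := by
  have := hC.fin
  have hmem : ∀ u : Va, (φ e (u : V))⁻¹ * u ∈ Va := by
    intro u
    exact Va.mul_mem (Va.inv_mem (hC.sa e u u.2)) u.2
  have hinj : Function.Injective (fun u : Va => (⟨(φ e (u : V))⁻¹ * u, hmem u⟩ : Va)) := by
    intro u u' h
    have h1 : (φ e (u : V))⁻¹ * u = (φ e (u' : V))⁻¹ * u' := congrArg Subtype.val h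
    have h2 : φ e ((u : V) * (u' : V)⁻¹) = (u : V) * (u' : V)⁻¹ := by
      rw [map_mul, map_inv]
      have h3 : (u : V) = φ e (u : V) * ((φ e (u' : V))⁻¹ * u') := by
        rw [← h1, mul_inv_cancel_left]
      calc φ e (u : V) * (φ e (u' : V))⁻¹
          = φ e (u : V) * ((φ e (u' : V))⁻¹ * u') * (u' : V)⁻¹ := by
            rw [mul_assoc, mul_assoc, mul_inv_cancel, mul_one]
        _ = (u : V) * (u' : V)⁻¹ := by rw [← h3]
    rcases hC.free e _ (Va.mul_mem u.2 (Va.inv_mem u'.2)) h2 with h4 | h4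
    · exact absurd h4 he
    · exact Subtype.ext (mul_inv_eq_one.mp h4)
  have : Finite Va := inferInstance
  obtain ⟨u, hu⟩ := (Finite.injective_iff_surjective.mp hinj) a
  have hu' : (φ e (u : V))⁻¹ * u = (a : V) := congrArg Subtype.val hu
  rw [← hu']
  exact inv_coeff φ e z hz u v

/-- the product map -/
theorem prod_bij {ℓ : ℕ} {V E : Type} [CommGroup V] [Group E]
    (φ : E →* MulAut V) (Va W : Subgroup V) (hC : CtW ℓ φ Va W) :
    Function.Bijective (fun p : W × Va => (p.2 : V) * (p.1 : V)) := by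
  constructor
  · rintro ⟨w, u⟩ ⟨w', u'⟩ h
    have h : (u : V) * (w : V) = (u' : V) * (w' : V) := h
    have h1 : (u' : V)⁻¹ * u = (w' : V) * (w : V)⁻¹ := by
      rw [eq_mul_inv_iff_mul_eq, mul_assoc, h, inv_mul_cancel_left]
    have h2 : (u' : V)⁻¹ * u ∈ Va ⊓ W :=
      ⟨Va.mul_mem (Va.inv_mem u'.2) u.2, by rw [h1]; exact W.mul_mem w'.2 (W.inv_mem w.2)⟩
    rw [hC.dis, Subgroup.mem_bot] at h2
    have h3 : (u' : V) = u := inv_mul_eq_one.mp h2
    have h4 : (w' : V) = w := by
      rw [h1] at h2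
      exact mul_inv_eq_one.mp h2
    exact Prod.ext (Subtype.ext h4.symm) (Subtype.ext h3.symm)
  · intro v
    have hv : v ∈ Va ⊔ W := by rw [hC.sup]; exact Subgroup.mem_top v
    obtain ⟨u, hu, w, hw, rfl⟩ := Subgroup.mem_sup.mp hv
    exact ⟨(⟨w, hw⟩, ⟨u, hu⟩), rfl⟩

theorem anw : AnwStmt := by
  intro R F V E R1 _ _ _ _ _ _ ℓ c o φ Va W _ rho act ψ A fb eps sg hC hψ hA hfb heps hsg hrho
    e z hz
  classical
  by_cases he : e = 1
  · obtain ⟨y, hy⟩ := fb.surj z
    refine ⟨y, hy, fun s => ?_⟩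
    rw [he, map_one]
    rfl
  have := hC.fin
  have : Fintype V := Fintype.ofFinite V
  have : Fintype W := Fintype.ofFinite W
  have hsmul : ∀ (r : R) (x : R1), rho.q (r • x) = c.κ r • rho.q x := by
    intro r x
    rw [Algebra.smul_def, map_mul, rho.sc, ← Algebra.smul_def]
  have hy : fb.q (∑ w : W, single w (o.τ (z.coeff (w : V)) • sg)) = z := by
    have h1 : ∀ w : W, fb.q (single w (o.τ (z.coeff (w : V)) • sg)) =
        ∑ u : Va, single ((u : V) * (w : V)) (z.coeff ((u : V) * (w : V))) := by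
      intro w
      rw [hfb, hsmul, o.τκ, hrho, map_smul, map_sum, smul_mul_assoc, Finset.sum_mul,
        Finset.smul_sum]
      apply Finset.sum_congr rfl
      intro u _
      rw [inv_Va φ Va W hC e he z hz u w, MonoidAlgebra.of_apply, MonoidAlgebra.of_apply]
      have h2 : (MonoidAlgebra.mapDomainAlgHom F F Va.subtype) (single u (1 : F)) =
          single (u : V) 1 := MonoidAlgebra.mapDomain_single
      rw [h2, single_mul_single, smul_single, mul_one, smul_eq_mul, mul_one]
    rw [map_sum, Finset.sum_congr rfl fun w _ => h1 w]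
    rw [← Fintype.sum_prod_type' (f := fun (w : W) (u : Va) =>
      (single ((u : V) * (w : V)) (z.coeff ((u : V) * (w : V))) : MonoidAlgebra F V))]
    have h3 := (prod_bij φ Va W hC).sum_comp
      (fun v : V => (single v (z.coeff v) : MonoidAlgebra F V))
    rw [sum_all] at h3
    exact h3
  refine ⟨_, hy, fun s => ?_⟩
  induction s using MonoidAlgebra.induction_linear with
  | zero => rw [map_zero, zero_mul]
  | add f g hf hg => rw [map_add, add_mul, add_mul, hf, hg]
  | single w' r =>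
    rw [hA, Finset.mul_sum, Finset.mul_sum]
    have hr : ∀ (x : R1) (k : R), x * (k • sg) = k • (eps x • sg) := by
      intro x k
      rw [mul_smul_comm, hsg]
    symm
    apply Fintype.sum_equiv (Equiv.mulLeft ((ψ e w')⁻¹ * w'))
    intro w
    rw [single_mul_single, single_mul_single, hr, hr, heps, Equiv.coe_mulLeft]
    have h4 : ψ e w' * ((ψ e w')⁻¹ * w' * w) = w' * w := by
      rw [mul_assoc, mul_inv_cancel_left]
    have h5 : z.coeff (((ψ e w')⁻¹ * w' * w : W) : V) = z.coeff (w : V) := by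
      rw [Subgroup.coe_mul, Subgroup.coe_mul, Subgroup.coe_inv, hψ]
      exact inv_coeff φ e z hz _ _
    rw [h4, h5]

end Pool.Agent.PFD.D3.H75
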