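import Pool.Agent.PFD.StmtsD3

/-! # PFD, block D3, row REL: the relations -/

open scoped BigOperators

noncomputable section

namespace Pool.Agent.PFD.D3.H75

open MvPolynomial
open Pool.Agent.PFD Pool.Agent.PFD.D3

section rel

variable {R E B : Type} [CommRing R] [Group E] [Fintype E] {J : B → Type}
  [∀ b, Fintype (J b)] [∀ b, DecidableEq (J b)]

/-- the relation -/
def ff (ℓ : ℕ) (a : B → ℕ) (m : R) (D D' : ∀ b, E →* Matrix (J b) (J b) R) (b : B)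
    (j : J b) : MvPolynomial (Σ b, J b) R :=
  ∑ h : E, ∑ k : J b, C (m * D' b h⁻¹ k j) * (Lb D h (X ⟨b, k⟩)) ^ ℓ ^ a b

theorem ff_hom (hp : PacStmt) (ℓ : ℕ) (a : B → ℕ) (m : R)
    (D D' : ∀ b, E →* Matrix (J b) (J b) R) (b : B) (j : J b) :
    (ff ℓ a m D D' b j).IsHomogeneous (ℓ ^ a b) := by
  obtain ⟨-, -, -, hh⟩ := hp R E B J D
  unfold ff
  apply IsHomogeneous.sum
  intro h _
  apply IsHomogeneous.sum
  intro k _
  have h1 := (hh h (X ⟨b, k⟩) 1 (isHomogeneous_X R _)).pow (ℓ ^ a b)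
  have h2 := (isHomogeneous_C (Σ b, J b) (m * D' b h⁻¹ k j)).mul h1
  rw [one_mul, zero_add] at h2
  exact h2

theorem ff_act (hp : PacStmt) (ℓ : ℕ) (a : B → ℕ) (m : R)
    (D D' : ∀ b, E →* Matrix (J b) (J b) R) (e : E) (b : B) (j : J b) :
    Lb D e (ff ℓ a m D D' b j) = ∑ k, C (D' b e k j) * ff ℓ a m D D' b k := by
  obtain ⟨-, hmul, -, -⟩ := hp R E B J D
  have h1 : Lb D e (ff ℓ a m D D' b j) =
      ∑ h : E, ∑ k : J b, C (m * D' b h⁻¹ k j) * (Lb D (e * h) (X ⟨b, k⟩)) ^ ℓ ^ a b := by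
    unfold ff
    rw [map_sum]
    apply Finset.sum_congr rfl
    intro h _
    rw [map_sum]
    apply Finset.sum_congr rfl
    intro k _
    rw [map_mul, map_pow, hmul]
    congr 1
    exact (Lb D e).commutes _
  have h2 : (∑ h : E, ∑ k : J b, C (m * D' b h⁻¹ k j) *
      (Lb D (e * h) (X ⟨b, k⟩)) ^ ℓ ^ a b) =
      ∑ h : E, ∑ k : J b, C (m * D' b (h⁻¹ * e) k j) *
        (Lb D h (X ⟨b, k⟩)) ^ ℓ ^ a b := by
    apply Fintype.sum_equiv (Equiv.mulLeft e)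
    intro h
    rw [Equiv.coe_mulLeft]
    apply Finset.sum_congr rfl
    intro k _
    rw [mul_inv_rev, inv_mul_cancel_right]
  rw [h1, h2]
  unfold ff
  have h3 : ∀ h : E, ∀ k : J b, C (m * D' b (h⁻¹ * e) k j) * (Lb D h (X ⟨b, k⟩)) ^ ℓ ^ a b =
      ∑ i : J b, C (D' b e i j) * (C (m * D' b h⁻¹ k i) * (Lb D h (X ⟨b, k⟩)) ^ ℓ ^ a b) := by
    intro h k
    rw [map_mul (D' b), Matrix.mul_apply, Finset.mul_sum, map_sum, Finset.sum_mul]
    apply Finset.sum_congr rfl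
    intro i _
    rw [← mul_assoc (C (D' b e i j)), ← C_mul]
    congr 2
    ring
  calc (∑ h : E, ∑ k : J b, C (m * D' b (h⁻¹ * e) k j) * (Lb D h (X ⟨b, k⟩)) ^ ℓ ^ a b)
      = ∑ h : E, ∑ k : J b, ∑ i : J b, C (D' b e i j) *
          (C (m * D' b h⁻¹ k i) * (Lb D h (X ⟨b, k⟩)) ^ ℓ ^ a b) :=
        Finset.sum_congr rfl fun h _ => Finset.sum_congr rfl fun k _ => h3 h k
    _ = ∑ h : E, ∑ i : J b, ∑ k : J b, C (D' b e i j) *
          (C (m * D' b h⁻¹ k i) * (Lb D h (X ⟨b, k⟩)) ^ ℓ ^ a b) :=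
        Finset.sum_congr rfl fun h _ => Finset.sum_comm
    _ = ∑ i : J b, ∑ h : E, ∑ k : J b, C (D' b e i j) *
          (C (m * D' b h⁻¹ k i) * (Lb D h (X ⟨b, k⟩)) ^ ℓ ^ a b) := Finset.sum_comm
    _ = _ := by
        apply Finset.sum_congr rfl
        intro i _
        rw [Finset.mul_sum]
        apply Finset.sum_congr rfl
        intro h _
        rw [Finset.mul_sum]

omit [Fintype E] in
/-- the power of the linear form -/
theorem lin_pow (hp : PacStmt) (ℓ : ℕ) [Fact ℓ.Prime] {F : Type} [Field F] [CharP F ℓ]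
    (κ : R →+* F) (a : B → ℕ)
    (D D' : ∀ b, E →* Matrix (J b) (J b) R)
    (hD : ∀ b e k j, κ (D' b e k j) = κ (D b e k j) ^ ℓ ^ a b) (b : B) (h : E) (k : J b) :
    (MvPolynomial.map κ (Lb D h (X ⟨b, k⟩))) ^ ℓ ^ a b =
      ∑ i : J b, C (κ (D' b h i k)) * X ⟨b, i⟩ ^ ℓ ^ a b := by
  obtain ⟨-, -, hX, -⟩ := hp R E B J D
  rw [hX, map_sum, sum_pow_char_pow ℓ]
  apply Finset.sum_congr rfl
  intro i _
  rw [map_mul, map_C, map_X, mul_pow, ← C_pow, hD]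

theorem map_ff (hp : PacStmt) (ℓ : ℕ) [Fact ℓ.Prime] {F : Type} [Field F] [CharP F ℓ]
    (κ : R →+* F) (a : B → ℕ) (m : R)
    (D D' : ∀ b, E →* Matrix (J b) (J b) R)
    (hD : ∀ b e k j, κ (D' b e k j) = κ (D b e k j) ^ ℓ ^ a b) (b : B) (j : J b) :
    MvPolynomial.map κ (ff ℓ a m D D' b j) =
      ∑ h : E, ∑ k : J b, ∑ i : J b,
        C (κ (m * (D' b h i k * D' b h⁻¹ k j))) * X ⟨b, i⟩ ^ ℓ ^ a b := by
  unfold ff
  rw [map_sum]
  apply Finset.sum_congr rfl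
  intro h _
  rw [map_sum]
  apply Finset.sum_congr rfl
  intro k _
  rw [map_mul, map_pow, map_C, lin_pow hp ℓ κ a D D' hD b h k, Finset.mul_sum]
  apply Finset.sum_congr rfl
  intro i _
  rw [← mul_assoc, ← C_mul, ← map_mul]
  congr 3
  ring

omit [Fintype E] in
theorem sum_mat {F σ : Type} [Field F] (κ : R →+* F) (m : R) (b : B)
    (D' : E →* Matrix (J b) (J b) R) (Y : J b → MvPolynomial σ F) (j : J b) (h : E) :
    (∑ i : J b, ∑ k : J b, C (κ (m * (D' h i k * D' h⁻¹ k j))) * Y i) =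
      C (κ m) * Y j := by
  have h1 : ∀ i : J b, (∑ k : J b, C (κ (m * (D' h i k * D' h⁻¹ k j))) * Y i) =
      C (κ (m * (1 : Matrix (J b) (J b) R) i j)) * Y i := by
    intro i
    have h2 : (1 : Matrix (J b) (J b) R) i j = ∑ k, D' h i k * D' h⁻¹ k j := by
      rw [← Matrix.mul_apply, ← map_mul, mul_inv_cancel, map_one]
    rw [← Finset.sum_mul, h2, Finset.mul_sum, map_sum, map_sum]
  rw [Finset.sum_congr rfl fun i _ => h1 i, Finset.sum_eq_single j]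
  · rw [Matrix.one_apply_eq, mul_one]
  · intro i _ hi
    rw [Matrix.one_apply_ne hi, mul_zero, map_zero, map_zero, zero_mul]
  · intro h0
    exact absurd (Finset.mem_univ j) h0

theorem ff_map (hp : PacStmt) (ℓ : ℕ) [Fact ℓ.Prime] {F : Type} [Field F] [CharP F ℓ]
    (κ : R →+* F) (a : B → ℕ) (m : R) (hm : m * (Fintype.card E : R) = 1)
    (D D' : ∀ b, E →* Matrix (J b) (J b) R)
    (hD : ∀ b e k j, κ (D' b e k j) = κ (D b e k j) ^ ℓ ^ a b) (b : B) (j : J b) :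
    MvPolynomial.map κ (ff ℓ a m D D' b j) = X ⟨b, j⟩ ^ ℓ ^ a b := by
  obtain ⟨Y, hY⟩ : ∃ Y : J b → MvPolynomial (Σ b, J b) F, ∀ i, X ⟨b, i⟩ ^ ℓ ^ a b = Y i :=
    ⟨fun i => X ⟨b, i⟩ ^ ℓ ^ a b, fun i => rfl⟩
  have h0 : ∀ h : E, (∑ i : J b, ∑ k : J b,
      C (κ (m * (D' b h i k * D' b h⁻¹ k j))) * Y i) = C (κ m) * Y j := by
    intro h
    have h00 := sum_mat κ m b (D' b) Y j h
    exact h00
  have h1 : ∀ h : E, (∑ k : J b, ∑ i : J b,
      C (κ (m * (D' b h i k * D' b h⁻¹ k j))) * Y i) = C (κ m) * Y j := by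
    intro h
    rw [← h0 h]
    exact Finset.sum_comm
  have h2 : MvPolynomial.map κ (ff ℓ a m D D' b j) =
      ∑ h : E, ∑ k : J b, ∑ i : J b,
        C (κ (m * (D' b h i k * D' b h⁻¹ k j))) * Y i := by
    rw [map_ff hp ℓ κ a m D D' hD b j]
    apply Finset.sum_congr rfl
    intro h _
    apply Finset.sum_congr rfl
    intro k _
    apply Finset.sum_congr rfl
    intro i _
    rw [hY i]
  rw [h2, hY j, Finset.sum_congr rfl fun h _ => h1 h, Finset.sum_const, Finset.card_univ,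
    nsmul_eq_mul, ← mul_assoc]
  have h3 : ((Fintype.card E : ℕ) : MvPolynomial (Σ b, J b) F) * C (κ m) = 1 := by
    rw [← map_natCast (C : F →+* MvPolynomial (Σ b, J b) F), ← C_mul,
      ← map_natCast κ, ← map_mul, mul_comm, hm, map_one, map_one]
  rw [h3, one_mul]

end rel

theorem rel (hp : PacStmt) : RelStmt := by
  intro ℓ _ R F E B _ _ _ _ _ c J _ _ a D D' hE hD
  have hu : IsUnit (Fintype.card E : R) := by
    apply c.loc
    rw [map_natCast]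
    exact hE
  obtain ⟨m, hm⟩ := hu.exists_left_inv
  refine ⟨fun i => ff ℓ a m D D' i.1 i.2, ?_, ?_, ?_⟩
  · intro i
    exact ff_hom hp ℓ a m D D' i.1 i.2
  · intro i
    exact ff_map hp ℓ c.κ a m hm D D' hD i.1 i.2
  · intro e b j
    exact ff_act hp ℓ a m D D' e b j

end Pool.Agent.PFD.D3.H75
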